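import Pool.Agent.H17.COR.Cnr
import Pool.Agent.H83.REC.Exi
import Pool.Agent.H1.GEN.Clx
import Pool.Agent.H72.KE.Acf

/-!
# The near digits of a pair given its velocities: one subclass for almost all windows

`CorC`: near the window `x + s` the near digits of a pair are full given its velocities. `PtG`: the
conditions at a window: the labels of the pair have the same slope larger than one. `cor_cls`: in one
subclass `CorC` holds at almost all windows with `PtG`, for all pairs.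
-/

set_option autoImplicit false

namespace Pool.TIE62

open Finset Real MvPolynomial Filter Topology MeasureTheory
open Pool.Agent.H49.Ent Pool.Agent.H32.Dense Pool.STK Pool.KA Pool.KSAT Pool.K2S Pool.PB Pool.S6C
  Pool.GEN Pool.RCD Pool.LA91 Pool.MIC6 Pool.REX Pool.REX83 Pool.OWN72 Pool.OWN43 Pool.OWN17

variable {m : ℕ}

theorem bas_le {S S' : PCl m} (h : S'.Le S) {Φ : Stat m} (hb : Bas S Φ) : Bas S' Φ := by
  obtain ⟨τ₀, hτ₀, h⟩ := h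
  obtain ⟨τ, hτ, J₁, hb⟩ := hb
  exact ⟨min τ τ₀, lt_min hτ hτ₀, J₁, fun J hJ F A hA => hb J hJ F A
    (S.mono (min_le_left _ _) (h _ (lt_min hτ hτ₀) (min_le_right _ _) J F A hA))⟩

/-- **The diagonal**: countably many properties of classes, which hold in smaller classes. -/
theorem diag_sub {S : PCl m} (hS : S.Ne) {ι : Type} [Countable ι] (Q : ι → PCl m → Prop)
    (down : ∀ (i : ι) (S₁ S₂ : PCl m), S₂.Le S₁ → Q i S₁ → Q i S₂)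
    (ex : ∀ (i : ι) (S₁ : PCl m), S₁.Ne →
      (∀ (τ : ℝ) (J : ℕ) (F : Fam m J) (A : F.Ω → Prop), S₁.St τ J F A → S.St τ J F A) →
      ∃ S₂ : PCl m, S₂.Ne ∧
        (∀ (τ : ℝ) (J : ℕ) (F : Fam m J) (A : F.Ω → Prop), S₂.St τ J F A → S₁.St τ J F A) ∧
        Q i S₂) :
    ∃ S' : PCl m, S'.Ne ∧
      (∀ (τ : ℝ) (J : ℕ) (F : Fam m J) (A : F.Ω → Prop), S'.St τ J F A → S.St τ J F A) ∧
      ∀ i, Q i S' := by
  refine diag_all hS Q down fun i S₁ hle hne => ?_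
  obtain ⟨τ₀, hτ₀, hl⟩ := hle
  obtain ⟨P₁, hP₁⟩ : ∃ P₁ : Sld m, P₁ = ⟨S.St, S.mono, S.res⟩ := ⟨_, rfl⟩
  have hne1 : (S₁.sl P₁).Ne := by
    intro τ hτ J₁
    obtain ⟨J, hJ, F, A, hA⟩ := hne (min τ τ₀) (lt_min hτ hτ₀) J₁
    refine ⟨J, hJ, F, A, S₁.mono (min_le_left _ _) hA, ?_⟩
    rw [hP₁]
    exact S.mono (min_le_left _ _) (hl _ (lt_min hτ hτ₀) (min_le_right _ _) J F A hA)
  obtain ⟨S₂, h1, h2, h3⟩ := ex i (S₁.sl P₁) hne1 fun τ J F A h => by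
    have := h.2
    rw [hP₁] at this
    exact this
  refine ⟨⟨S₂.St, S₂.mono, S₂.res⟩, down i S₂ _ ⟨1, one_pos, fun _ _ _ _ _ _ h => h.2⟩ h3, ?_⟩
  intro τ hτ J₁
  obtain ⟨J, hJ, F, A, hA⟩ := h1 τ hτ J₁
  exact ⟨J, hJ, F, A, (h2 τ J F A hA).1, hA⟩

/-- **The near digits of a pair are full given its velocities**, near the window `x + s`; side
information: the position and the first digits of the direction of the active coordinate. -/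
def CorC (S : PCl m) (y u v : Fin m) (s : ℝ) (U : ℚ → ℝ) (x φ Sl : ℝ) : Prop :=
  ∀ e : ℝ, 0 < e → ∃ i₀ : ℕ, ∀ i ≥ i₀, ∃ r₀ : ℝ, 0 < r₀ ∧ ∀ r : ℝ, 0 < r → r < r₀ →
    ∀ w j j' l : ℚ, x - r ≤ w → w ≤ j → j < j' → j' ≤ l → (l : ℝ) ≤ x + r →
    ∀ g : ℚ, φ - e * r ≤ g → (g : ℝ) < φ - e / 4 * r → ∀ c₀ : ℝ, 0 < c₀ →
    ∃ k : ℝ, 0 < k ∧ ∃ e₀ : ℝ, 0 < e₀ ∧ ∀ K : ℕ, Bas S (fun J F A' =>
    ∀ (V₁ V₂ : Type) (z : F.Ω → V₁) (zj : F.Ω → V₂),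
    Mx (fun J F => ptr F J) (vg ((w : ℝ) + s)) k F A' z →
    Mx (fun J F => ptr F J) (vg ((j : ℝ) + s)) k F A' zj → ∀ a b d,
    (gX m {y} u v s U g w j).P K e₀ J F A' a → (gX m {y} u v s U g w j').P K e₀ J F A' b →
    (gD m {y} u v s U g w l).P K e₀ J F A' d →
    ∀ B' : F.Ω → Prop, Sub B' A' → c₀ * Pe F.p A' ≤ Pe F.p B' →
    (2 * (Sl * (j' - j) * Real.log 2) - 200 * (e * r)) * J ≤
      CH (Pool.Agent.H49.Ent.cond F.p B' True) b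
        (fun ω => (a ω, (d ω, (zj ω, (z ω, yF F y ⌊(1 / 2 : ℝ) ^ i * J⌋₊ ω))))))

theorem CorC.le {S S' : PCl m} (hle : S'.Le S) {y u v : Fin m} {s : ℝ} {U : ℚ → ℝ} {x φ Sl : ℝ}
    (h : CorC S y u v s U x φ Sl) : CorC S' y u v s U x φ Sl := by
  intro e he
  obtain ⟨i₀, h1⟩ := h e he
  refine ⟨i₀, fun i hi => ?_⟩
  obtain ⟨r₀, hr₀, h2⟩ := h1 i hi
  refine ⟨r₀, hr₀, fun r a1 a2 w j j' l a3 a4 a5 a6 a7 g a8 a9 c₀ hc₀ => ?_⟩
  obtain ⟨k, hk, e₀, he₀, h3⟩ := h2 r a1 a2 w j j' l a3 a4 a5 a6 a7 g a8 a9 c₀ hc₀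
  exact ⟨k, hk, e₀, he₀, fun K => bas_le hle (h3 K)⟩

/-- **The conditions at a window** `g`: the labels of `u` over `y` and of `v` over `y`, `u` have the
precisions `u₀`, `u₀ + φ` and the slope `Sl > 1`. -/
structure PtG (L : Finset (Fin m) → Fin m → ℝ → ℝ → ℝ) (y u v : Fin m) (g u₀ φ Sl : ℝ) :
    Prop where
  g0 : 0 < g
  gu : g < u₀
  φ0 : 0 < φ
  φ1 : u₀ + φ < 1
  S1 : 1 < Sl
  der : ∀ e : ℝ, 0 < e → ∃ r₀ : ℝ, 0 < r₀ ∧ ∀ r : ℝ, 0 < r → r < r₀ → ∀ w : ℝ, |w - g| ≤ r →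
    |L {y} u w w - (u₀ + Sl * (w - g))| ≤ e * r ∧
    |L {y, u} v w w - (u₀ + φ + Sl * (w - g))| ≤ e * r ∧
    u₀ + Sl * (w - g) - e * r ≤ L {y} v w w

/-- A slope larger than one gives deep windows. -/
theorem deep_of {f : ℝ → ℝ} {g u₀ Sl : ℝ} (g0 : 0 < g) (g1 : g < 1) (S1 : 1 < Sl)
    (h : ∀ e : ℝ, 0 < e → ∃ r₀ : ℝ, 0 < r₀ ∧ ∀ r : ℝ, 0 < r → r < r₀ → ∀ w : ℝ, |w - g| ≤ r →
      u₀ + Sl * (w - g) - e * r ≤ f w) :
    ∃ a₀ a : ℝ, 0 ≤ a₀ ∧ a₀ < a ∧ a < 1 ∧ u₀ - g < f a₀ - a := by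
  obtain ⟨r₀, hr₀, h1⟩ := h ((Sl - 1) / 4) (by linarith)
  obtain ⟨r, hr⟩ : ∃ r, r = min (r₀ / 2) ((1 - g) / (2 * (1 + Sl))) := ⟨_, rfl⟩
  have hS : 0 < 2 * (1 + Sl) := by linarith
  have r0 : 0 < r := by rw [hr]; exact lt_min (by linarith) (div_pos (by linarith) hS)
  have r1 : r < r₀ := by
    have : r ≤ r₀ / 2 := by rw [hr]; exact min_le_left _ _
    linarith
  have r2 : r * (2 * (1 + Sl)) ≤ 1 - g := by
    have : r ≤ (1 - g) / (2 * (1 + Sl)) := by rw [hr]; exact min_le_right _ _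
    rwa [le_div_iff₀ hS] at this
  have h2 := h1 r r0 r1 (g + r) (by rw [add_sub_cancel_left, abs_of_pos r0])
  rw [add_sub_cancel_left] at h2
  have h3 : 0 < (Sl - 1) * r := mul_pos (by linarith) r0
  refine ⟨g + r, g + r + (Sl - 1) / 4 * r, by linarith, ?_, ?_, ?_⟩
  · have : 0 < (Sl - 1) / 4 * r := by linarith
    linarith
  · nlinarith
  · nlinarith

theorem PtG.eq_u {L : Finset (Fin m) → Fin m → ℝ → ℝ → ℝ} {y u v : Fin m} {g u₀ φ Sl : ℝ}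
    (P : PtG L y u v g u₀ φ Sl) : L {y} u g g = u₀ := by
  by_contra hne
  have h0 : 0 < |L {y} u g g - u₀| := abs_pos.2 (sub_ne_zero.2 hne)
  obtain ⟨r₀, hr₀, h1⟩ := P.der 1 one_pos
  obtain ⟨r, hr⟩ : ∃ r, r = min (r₀ / 2) (|L {y} u g g - u₀| / 2) := ⟨_, rfl⟩
  have r0 : 0 < r := by rw [hr]; exact lt_min (by linarith) (by linarith)
  have r1 : r < r₀ := by
    have : r ≤ r₀ / 2 := by rw [hr]; exact min_le_left _ _
    linarith
  have r2 : r ≤ |L {y} u g g - u₀| / 2 := by rw [hr]; exact min_le_right _ _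
  have h2 := (h1 r r0 r1 g (by rw [sub_self, abs_zero]; exact r0.le)).1
  rw [sub_self, mul_zero, add_zero, one_mul] at h2
  linarith

theorem PtG.uv {L : Finset (Fin m) → Fin m → ℝ → ℝ → ℝ} {y u v : Fin m} {g u₀ φ Sl : ℝ}
    (P : PtG L y u v g u₀ φ Sl) : L {y} u g g ≤ L {y} v g g := by
  rw [P.eq_u]
  by_contra hcon
  push Not at hcon
  obtain ⟨r₀, hr₀, h1⟩ := P.der 1 one_pos
  obtain ⟨r, hr⟩ : ∃ r, r = min (r₀ / 2) ((u₀ - L {y} v g g) / 2) := ⟨_, rfl⟩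
  have r0 : 0 < r := by rw [hr]; exact lt_min (by linarith) (by linarith)
  have r1 : r < r₀ := by
    have : r ≤ r₀ / 2 := by rw [hr]; exact min_le_left _ _
    linarith
  have r2 : r ≤ (u₀ - L {y} v g g) / 2 := by rw [hr]; exact min_le_right _ _
  have h2 := (h1 r r0 r1 g (by rw [sub_self, abs_zero]; exact r0.le)).2.2
  rw [sub_self, mul_zero, add_zero, one_mul] at h2
  linarith

theorem PtG.du {L : Finset (Fin m) → Fin m → ℝ → ℝ → ℝ} {y u v : Fin m} {g u₀ φ Sl : ℝ}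
    (P : PtG L y u v g u₀ φ Sl) :
    ∃ a₀ a : ℝ, 0 ≤ a₀ ∧ a₀ < a ∧ a < 1 ∧ u₀ - g < L {y} u a₀ a₀ - a := by
  refine deep_of P.g0 (by linarith [P.gu, P.φ0, P.φ1]) P.S1 fun e he => ?_
  obtain ⟨r₀, hr₀, h⟩ := P.der e he
  refine ⟨r₀, hr₀, fun r a b w hw => ?_⟩
  have := (abs_le.1 (h r a b w hw).1).1
  linarith

theorem PtG.dv {L : Finset (Fin m) → Fin m → ℝ → ℝ → ℝ} {y u v : Fin m} {g u₀ φ Sl : ℝ}
    (P : PtG L y u v g u₀ φ Sl) :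
    ∃ a₀ a : ℝ, 0 ≤ a₀ ∧ a₀ < a ∧ a < 1 ∧ u₀ - g < L {y} v a₀ a₀ - a := by
  refine deep_of P.g0 (by linarith [P.gu, P.φ0, P.φ1]) P.S1 fun e he => ?_
  obtain ⟨r₀, hr₀, h⟩ := P.der e he
  exact ⟨r₀, hr₀, fun r a b w hw => (h r a b w hw).2.2⟩

/-- The good windows near a window with `PtG`. -/
theorem PtG.near {L : Finset (Fin m) → Fin m → ℝ → ℝ → ℝ} {y u v : Fin m} {g u₀ φ Sl : ℝ}
    (P : PtG L y u v g u₀ φ Sl) : ∃ δ : ℝ, 0 < δ ∧ ∀ t : ℝ, |t - g| ≤ δ →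
      0 < t ∧ t < 1 ∧ t < L {y} u t t ∧ t < L {y, u} v t t ∧ L {y} u t t < 1 ∧
      L {y, u} v t t < 1 ∧ ∃ a₀ a : ℝ, 0 ≤ a₀ ∧ a₀ < a ∧ a < 1 ∧
        L {y} u t t - t < L {y} u a₀ a₀ - a := by
  obtain ⟨a₀, a, ha0, haa, ha1, hd⟩ := P.du
  obtain ⟨d, hd'⟩ : ∃ d, d = min (min (u₀ - g) (1 - (u₀ + φ)))
    (min (L {y} u a₀ a₀ - a - (u₀ - g)) g) := ⟨_, rfl⟩
  have d0 : 0 < d := by
    rw [hd']
    refine lt_min (lt_min ?_ ?_) (lt_min ?_ P.g0)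
    · linarith [P.gu]
    · linarith [P.φ1]
    · linarith
  have q : d ≤ u₀ - g ∧ d ≤ 1 - (u₀ + φ) ∧ d ≤ L {y} u a₀ a₀ - a - (u₀ - g) ∧ d ≤ g := by
    have := hd'.le
    simp only [le_min_iff] at this
    tauto
  obtain ⟨q1, q2, q3, q4⟩ := q
  obtain ⟨r₀, hr₀, h⟩ := P.der 1 one_pos
  have hS : 0 < 2 * (2 + Sl) := by linarith [P.S1]
  obtain ⟨r, hr⟩ : ∃ r, r = min (r₀ / 2) (d / (2 * (2 + Sl))) := ⟨_, rfl⟩
  have r0 : 0 < r := by rw [hr]; exact lt_min (by linarith) (div_pos d0 hS)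
  have r1 : r < r₀ := by
    have : r ≤ r₀ / 2 := by rw [hr]; exact min_le_left _ _
    linarith
  have r2 : r * (2 * (2 + Sl)) ≤ d := by
    have : r ≤ d / (2 * (2 + Sl)) := by rw [hr]; exact min_le_right _ _
    rwa [le_div_iff₀ hS] at this
  have r3 : Sl * r + 2 * r ≤ d / 2 := by linarith
  refine ⟨r, r0, fun t ht => ?_⟩
  obtain ⟨h1, h2, -⟩ := h r r0 r1 t ht
  have hS0 : 0 < Sl := by linarith [P.S1]
  have h3 : |Sl * (t - g)| ≤ Sl * r := by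
    rw [abs_mul, abs_of_pos hS0]
    exact mul_le_mul_of_nonneg_left ht hS0.le
  obtain ⟨h3, h3'⟩ := abs_le.1 h3
  obtain ⟨h1, h1'⟩ := abs_le.1 h1
  obtain ⟨h2, h2'⟩ := abs_le.1 h2
  obtain ⟨ht, ht'⟩ := abs_le.1 ht
  have hSr : 0 ≤ Sl * r := by positivity
  have := P.φ0
  refine ⟨by linarith, by linarith, by linarith, by linarith, by linarith, by linarith,
    a₀, a, ha0, haa, ha1, by linarith⟩

/-- **The near digits of a pair given its velocities**: one subclass for almost all windows. -/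
theorem cor_cls (hFn : ∀ k, 1 ≤ k → k ≤ 3 → FZX k) {S : PCl m} (hS : S.Ne) {C₀ : ℝ}
    (hC₀ : 0 ≤ C₀) (htm : TmC S C₀)
    (hpos : ∀ (τ : ℝ) (J : ℕ) (F : Fam m J) (A : F.Ω → Prop), S.St τ J F A → 0 < Pe F.p A)
    {L : Finset (Fin m) → Fin m → ℝ → ℝ → ℝ} (hL : LamW S L) {Na : ℚ → ℚ → ℝ} {al : ℝ}
    {g₀ : ℝ → ℝ} (hal : 0 < al) (hg₀ : ∀ e, 0 < e → 0 < g₀ e) (hM : ActM Na al g₀) {y : Fin m}
    (hB : ActB Na S y) {M : ℝ}
    (hcnt : Bas S (fun J F A => (cnt F.p (ptr F J) A : ℝ) ≤ Real.exp (M * J))) :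
    ∃ (S' : PCl m) (s : ℝ), S'.Ne ∧
      (∀ (τ : ℝ) (J : ℕ) (F : Fam m J) (A : F.Ω → Prop), S'.St τ J F A → S.St τ J F A) ∧
      ∀ u v : Fin m, y ≠ u → y ≠ v → u ≠ v → ∀ᵐ g : ℝ, ∀ u₀ φ Sl : ℝ,
        PtG L y u v g u₀ φ Sl →
        CorC S' y u v s (fun q => L {y} u ((q : ℝ) + s) ((q : ℝ) + s)) (g - s) φ Sl := by
  classical
  have hposB : Bas S (fun _ F A => 0 < Pe F.p A) :=
    ⟨1, one_pos, 0, fun J _ F A hA => hpos 1 J F A hA⟩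
  have hact : ActF S y := actF_of hposB hal hg₀ hM hB
  -- the countable set of the bad windows
  have hbu : ∀ u : Fin m, ∃ B : Set ℝ, B.Countable ∧ (y ≠ u → ∀ w : ℝ, 0 < w → w < 1 → w ∉ B →
      L {y} u w w < 1 → Chn S (fun i => if i = 0 then y else u) 1 2 w w (L {y} u w w)
        (fun i => if i = 0 then w else L {y} u w w) (fun _ => w)) := by
    intro u
    by_cases h : y = u
    · exact ⟨∅, Set.countable_empty, fun h' => absurd h h'⟩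
    · obtain ⟨B, h1, h2⟩ := chn_pair (hFn 2 (by norm_num) (by norm_num)) hS hC₀ htm hL hal hg₀ hM
        h hB (c := fun i => if i = 0 then y else u) (by simp) (by simp)
      exact ⟨B, h1, fun _ => h2⟩
  choose Bd hBd1 hBd2 using hbu
  obtain ⟨Z, hZ⟩ : ∃ Z : Set ℝ, Z = (⋃ u, Bd u) ∪ ⋃ p : Finset (Fin m) × Fin m,
      {W | ¬ ContinuousAt (fun W => L p.1 p.2 W W) W} := ⟨_, rfl⟩
  have hZc : Z.Countable := by
    rw [hZ]
    exact (Set.countable_iUnion hBd1).union (Set.countable_iUnion fun p => (cnt_L hL p.1 p.2).2)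
  obtain ⟨s, hs⟩ : ∃ s : ℝ, ∀ q : ℚ, (q : ℝ) + s ∉ Z := by
    have h1 : (⋃ q : ℚ, (fun z : ℝ => z - q) '' Z).Countable :=
      Set.countable_iUnion fun q => hZc.image _
    obtain ⟨s, hs⟩ := (h1.dense_compl ℝ).nonempty
    refine ⟨s, fun q hq => hs ?_⟩
    exact Set.mem_iUnion.2 ⟨q, (q : ℝ) + s, hq, by ring⟩
  have hsB : ∀ (u : Fin m) (q : ℚ), (q : ℝ) + s ∉ Bd u := fun u q h => hs q (by
    rw [hZ]
    exact Or.inl (Set.mem_iUnion.2 ⟨u, h⟩))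
  have hsC : ∀ (I : Finset (Fin m)) (k : Fin m) (q : ℚ),
      ContinuousAt (fun W => L I k W W) ((q : ℝ) + s) := by
    intro I k q
    by_contra h
    refine hs q ?_
    rw [hZ]
    exact Or.inr (Set.mem_iUnion.2 ⟨(I, k), h⟩)
  -- the numbers of activity and of the records
  obtain ⟨S₁, Ns, hS₁, sub₁, hNs⟩ := actN_exists' hS hpos
  obtain ⟨f, hf⟩ := exists_surjective_nat ℚ
  obtain ⟨S₂, hS₂, sub₂, hη⟩ := ext_rec hS₁
    (fun τ J F A h => hpos τ J F A (sub₁ τ J F A h)) (fun _ _ F => PtT F) (fun _ _ F => LnT F)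
    (fun _ J F => ptr F J) (fun i => vg ((f i : ℝ) + s)) (fun _ => M) (fun _ => hcnt.sub sub₁)
  have sub₂₀ : ∀ (τ : ℝ) (J : ℕ) (F : Fam m J) (A : F.Ω → Prop), S₂.St τ J F A → S.St τ J F A :=
    fun τ J F A h => sub₁ τ J F A (sub₂ τ J F A h)
  obtain ⟨GI, hGI⟩ : ∃ GI : Fin m → Fin m → ℚ → ℚ → Prop, GI = fun u v (A B : ℚ) =>
      ∀ q : ℚ, (A : ℝ) < q → (q : ℝ) < B → 0 < (q : ℝ) + s ∧ (q : ℝ) + s < 1 ∧
        Gdw L y u v ((q : ℝ) + s) ∧ L {y, u} v ((q : ℝ) + s) ((q : ℝ) + s) < 1 := ⟨_, rfl⟩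
  obtain ⟨Q, hQ⟩ : ∃ Q : (Fin m × Fin m) × (ℚ × ℚ) → PCl m → Prop, Q = fun i S' =>
      y ≠ i.1.1 → y ≠ i.1.2 → i.1.1 ≠ i.1.2 → GI i.1.1 i.1.2 i.2.1 i.2.2 →
      ∀ᵐ x : ℝ, x ∈ Set.Ioo (i.2.1 : ℝ) (i.2.2 : ℝ) → ∀ u₀ φ Sl : ℝ,
        PtC L y i.1.1 i.1.2 (fun q => L {y} i.1.1 ((q : ℝ) + s) ((q : ℝ) + s))
          (fun q => L {y, i.1.1} i.1.2 ((q : ℝ) + s) ((q : ℝ) + s)) s x u₀ φ Sl →
        CorC S' y i.1.1 i.1.2 s (fun q => L {y} i.1.1 ((q : ℝ) + s) ((q : ℝ) + s)) x φ Sl :=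
    ⟨_, rfl⟩
  obtain ⟨S', hS', sub', hall⟩ := diag_sub hS₂ Q (by
      rw [hQ]
      intro i T₁ T₂ hle h a1 a2 a3 a4
      filter_upwards [h a1 a2 a3 a4] with x hx hxA u₀ φ Sl hP
      exact (hx hxA u₀ φ Sl hP).le hle) (by
    rw [hQ]
    rintro ⟨⟨u, v⟩, ⟨A, B⟩⟩ S₃ hS₃ sub₃
    by_cases hc : y ≠ u ∧ y ≠ v ∧ u ≠ v ∧ GI u v A B
    · obtain ⟨hyu, hyv, huv, hgi⟩ := hc
      rw [hGI] at hgi
      have sub₃₀ : ∀ (τ : ℝ) (J : ℕ) (F : Fam m J) (A : F.Ω → Prop),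
          S₃.St τ J F A → S.St τ J F A := fun τ J F A h => sub₂₀ τ J F A (sub₃ τ J F A h)
      have htm₃ : TmC S₃ C₀ := fun τ J F A hτ h => htm τ J F A hτ (sub₃₀ τ J F A h)
      obtain ⟨T, hT⟩ : ∃ T : Set ℝ, T = {t | ∃ q : ℚ, (A : ℝ) < q ∧ (q : ℝ) < B ∧
        t = (q : ℝ) + s} := ⟨_, rfl⟩
      have hTc : T.Countable := by
        refine (Set.countable_range (fun q : ℚ => (q : ℝ) + s)).mono ?_
        rw [hT]
        rintro t ⟨q, -, -, rfl⟩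
        exact ⟨q, rfl⟩
      have hact₃ : ActF S₃ y := actF_of (hposB.sub sub₃₀) hal hg₀ hM
        (fun q q' a b c h hh => (hB q q' a b c h hh).sub sub₃₀)
      obtain ⟨S₄, hS₄, sub₄, hatt⟩ := att_all hS₃ hC₀ htm₃ (hL.sub sub₃₀) hyu hact₃ hTc
        (v := v) (by
          rw [hT]
          rintro t ⟨q, a, b, rfl⟩
          exact (hgi q a b).2.2.1)
      have sub₄₀ : ∀ (τ : ℝ) (J : ℕ) (F : Fam m J) (A : F.Ω → Prop),
          S₄.St τ J F A → S.St τ J F A := fun τ J F A h => sub₃₀ τ J F A (sub₄ τ J F A h)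
      have sub₄₂ : ∀ (τ : ℝ) (J : ℕ) (F : Fam m J) (A : F.Ω → Prop),
          S₄.St τ J F A → S₂.St τ J F A := fun τ J F A h => sub₃ τ J F A (sub₄ τ J F A h)
      have htm₄ : TmC S₄ C₀ := fun τ J F A hτ h => htm τ J F A hτ (sub₄₀ τ J F A h)
      have hpos₄ : ∀ (τ : ℝ) (J : ℕ) (F : Fam m J) (A : F.Ω → Prop), S₄.St τ J F A →
          0 < Pe F.p A := fun τ J F A h => hpos τ J F A (sub₄₀ τ J F A h)
      have hB₄ : ActB Na S₄ y := fun q q' a b c h hh => (hB q q' a b c h hh).sub sub₄₀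
      have hact₄ : ActF S₄ y := actF_of (hposB.sub sub₄₀) hal hg₀ hM hB₄
      obtain ⟨G, hG⟩ : ∃ G : Set ℚ, G = {q : ℚ | (A : ℝ) < q ∧ (q : ℝ) < B} := ⟨_, rfl⟩
      have hGm : ∀ q ∈ G, (A : ℝ) < q ∧ (q : ℝ) < B := fun q hq => by
        rw [hG] at hq
        exact hq
      have hW : WinG S₄ {y} u v G s (fun q => L {y} u ((q : ℝ) + s) ((q : ℝ) + s))
          (fun q => L {y, u} v ((q : ℝ) + s) ((q : ℝ) + s)) := by
        refine win_of hS₄ htm₄ (hL.sub sub₄₀) (c := fun i => if i = 0 then y else u) (by simp)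
          (by simp) (fun q hq => ?_) (fun q hq => ?_) (fun q hq => ?_) (fun q hq => ?_)
          (fun q hq j hj => ?_)
        · obtain ⟨a, b⟩ := hGm q hq
          exact ⟨(hgi q a b).1, (hgi q a b).2.1⟩
        · obtain ⟨a, b⟩ := hGm q hq
          exact (hgi q a b).2.2.1.U1
        · obtain ⟨a, b⟩ := hGm q hq
          exact (hgi q a b).2.2.2
        · obtain ⟨a, b⟩ := hGm q hq
          exact (hBd2 u hyu _ (hgi q a b).1 (hgi q a b).2.1 (hsB u q)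
            (hgi q a b).2.2.1.U1).sub sub₄₀
        · obtain ⟨a, b⟩ := hGm q hq
          exact hatt _ (by
            rw [hT]
            exact ⟨q, a, b, rfl⟩) j hj
      obtain ⟨S₅, hS₅, sub₅, hae⟩ := cor_near hFn hS₄ hC₀ htm₄ hpos₄ (hL.sub sub₄₀)
        (actN_of_bas (fun Φ h => h.sub fun τ J F A hA => sub₂ τ J F A (sub₄₂ τ J F A hA)) hNs)
        hal hg₀ hM hB₄ hact₄ hyu hyv huv hW (A := A) (B := B)
        (fun q a b => by
          rw [hG]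
          exact ⟨a, b⟩) (fun _ _ => rfl) (fun _ _ => rfl)
        (fun q hq => by
          obtain ⟨a, b⟩ := hGm q hq
          exact (hgi q a b).2.2.1)
        (fun q _ _ => by
          obtain ⟨i, rfl⟩ := hf q
          obtain ⟨η, hη⟩ := hη i
          exact ⟨η, hη.sub sub₄₂⟩)
      exact ⟨S₅, hS₅, fun τ J F A h => sub₄ τ J F A (sub₅ τ J F A h), fun _ _ _ _ => hae⟩
    · refine ⟨S₃, hS₃, fun _ _ _ _ h => h, fun a1 a2 a3 a4 => absurd ⟨a1, a2, a3, a4⟩ hc⟩)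
  refine ⟨S', s, hS', fun τ J F A h => sub₂₀ τ J F A (sub' τ J F A h), ?_⟩
  intro u v hyu hyv huv
  have h1 : ∀ᵐ x : ℝ, ∀ p : ℚ × ℚ, GI u v p.1 p.2 → x ∈ Set.Ioo (p.1 : ℝ) (p.2 : ℝ) →
      ∀ u₀ φ Sl : ℝ, PtC L y u v (fun q => L {y} u ((q : ℝ) + s) ((q : ℝ) + s))
          (fun q => L {y, u} v ((q : ℝ) + s) ((q : ℝ) + s)) s x u₀ φ Sl →
        CorC S' y u v s (fun q => L {y} u ((q : ℝ) + s) ((q : ℝ) + s)) x φ Sl := by
    rw [ae_all_iff]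
    intro p
    by_cases hg : GI u v p.1 p.2
    · have h2 := hall ((u, v), p)
      rw [hQ] at h2
      filter_upwards [h2 hyu hyv huv hg] with x hx _ hxA
      exact hx hxA
    · exact Filter.Eventually.of_forall fun x h => absurd h hg
  have h2 := (measurePreserving_sub_right (volume : Measure ℝ) s).quasiMeasurePreserving.ae h1
  filter_upwards [h2] with g hg u₀ φ Sl P
  obtain ⟨δ, hδ, hnear⟩ := P.near
  obtain ⟨A, hA1, hA2⟩ := exists_rat_btwn (by linarith : g - s - δ < g - s)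
  obtain ⟨B, hB1, hB2⟩ := exists_rat_btwn (by linarith : g - s < g - s + δ)
  refine hg (A, B) ?_ ⟨hA2, hB1⟩ u₀ φ Sl ?_
  · rw [hGI]
    intro q a b
    have h3 : |(q : ℝ) + s - g| ≤ δ := by
      rw [abs_le]
      constructor <;> linarith
    obtain ⟨k1, k2, k3, k4, k5, k6, k7⟩ := hnear _ h3
    exact ⟨k1, k2, ⟨k1, hsC _ _ q, hsC _ _ q, k3, k4, k5, k7⟩, k6⟩
  · have e1 : g - s + s = g := by ring
    refine ⟨?_, P.φ0, P.φ1, P.S1, ?_, ?_, ?_, ?_⟩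
    · rw [e1]
      exact P.gu
    · intro e he
      obtain ⟨r₀, hr₀, h⟩ := P.der e he
      refine ⟨r₀, hr₀, fun r a b w c d => ?_⟩
      have h3 : |(w : ℝ) + s - g| ≤ r := by
        rw [abs_le]
        constructor <;> linarith
      obtain ⟨k1, k2, -⟩ := h r a b _ h3
      have e2 : (w : ℝ) + s - g = w - (g - s) := by ring
      rw [e2] at k1 k2
      exact ⟨k1, k2⟩
    · rw [e1]
      exact P.uv
    · rw [e1]
      exact P.du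
    · rw [e1]
      exact P.dv

end Pool.TIE62
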