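import Pool.Agent.H62.TIE.Crk
import Pool.Agent.H87.GEN.Pkg

/-!
# The near digits of a pair given its velocities, for a package

`cor_pk`: `cor_cls` for the class of a package; the active coordinate is the first one.
-/

set_option autoImplicit false

namespace Pool.TIE62

open Finset Real MvPolynomial Filter Topology MeasureTheory
open Pool.Agent.H49.Ent Pool.Agent.H32.Dense Pool.STK Pool.KA Pool.KSAT Pool.K2S Pool.PB Pool.S6C
  Pool.GEN Pool.PKG

variable {n : ℕ} {hn : 2 ≤ n} {S : PCl n} {P : ℝ → ℝ → ℝ} {rr : ℝ → ℝ}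
  {P' : ℕ → List (Fin n) × Fin n → ℝ → ℝ → ℝ} {Λ : Finset (Fin n) → Fin n → ℝ → ℝ → ℝ}

/-- **The near digits of a pair given its velocities**, in one subclass of the class of a package. -/
theorem cor_pk (H : Pk hn S P rr P' Λ) (hFn : ∀ k, 1 ≤ k → k ≤ 3 → FZX k) (y : Fin n)
    (hy : (y : ℕ) = 0) :
    ∃ (S' : PCl n) (s : ℝ), S'.Ne ∧
      (∀ (τ : ℝ) (J : ℕ) (F : Fam n J) (A : F.Ω → Prop), S'.St τ J F A → S.St τ J F A) ∧
      ∀ u v : Fin n, y ≠ u → y ≠ v → u ≠ v → ∀ᵐ g : ℝ, ∀ u₀ φ Sl : ℝ,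
        PtG Λ y u v g u₀ φ Sl →
        CorC S' y u v s (fun q => Λ {y} u ((q : ℝ) + s) ((q : ℝ) + s)) (g - s) φ Sl := by
  obtain ⟨al, g₀, s, d, e, K₀, N, hal, hg₀, hC⟩ := H.cl
  exact cor_cls hFn hC.ne (by norm_num) H.tmc
    (fun τ J F A hA => lt_of_lt_of_le (Real.exp_pos _) (hC.mem τ J F A hA).2.2.2.1) H.lam hal hg₀
    hC.actm (hC.actb y hy) (hC.cnt.mono 0 fun J _ F A h => h J le_rfl)

end Pool.TIE62
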