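import Pool.Agent.H56.NB.All
import Pool.Agent.H56.ASM.Sub

/-!
# No boxes in a class from no boxes in a subclass

`noB_subc`: the boxes of a package depend only on its numbers, so no boxes in a subclass give no
boxes in the class. `ExS`: exactness in a subclass. `vAll_nS`, `vAll_tS`: as `vAll_n`, `vAll_t`.
-/

set_option autoImplicit false

namespace Pool.TIE62

open MeasureTheory Set Filter Topology
open Pool.Agent.H49.Ent Pool.Agent.H32.Dense Pool.STK Pool.KA Pool.KSAT Pool.K2S Pool.PB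
open Pool.GEN Pool.S6C Pool.STAT Pool.CHT Pool.GRW Pool.STA Pool.PKG
open Pool.ONE
open Pool.TOP (TopS)
open Pool.STR (NumI Rle CellD)
open Pool.STAT.CLO Pool.MIC6
open Pool.SW (Rgh NtO OneS NoTie TopC)
open Pool.ASM (subc)
open Pool.JTN (TgP)

variable {n : ℕ} {hn : 2 ≤ n} {S S' : PCl n} {P : ℝ → ℝ → ℝ} {rr : ℝ → ℝ}
  {P' : ℕ → List (Fin n) × Fin n → ℝ → ℝ → ℝ} {Λ : Finset (Fin n) → Fin n → ℝ → ℝ → ℝ}
  {PB : ℕ → List (Fin n) × Fin n → ℝ → ℝ → ℝ}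

theorem tgP_sub {c : ℕ → Fin n} {r : ℕ} {P₀ a w sg : ℝ}
    (hs : ∀ (τ : ℝ) (J : ℕ) (F : Fam n J) (A : F.Ω → Prop), S'.St τ J F A → S.St τ J F A)
    (h : TgP S c r P₀ a w sg) : TgP S' c r P₀ a w sg := by
  intro ε hε
  obtain ⟨K', K₁, h1, h2⟩ := h ε hε
  exact ⟨K', K₁, h1, h2.sub hs⟩

theorem adI_sub {c : ℝ} {o : Od n} {g ρ : ℝ}
    (hs : ∀ (τ : ℝ) (J : ℕ) (F : Fam n J) (A : F.Ω → Prop), S'.St τ J F A → S.St τ J F A)
    (h : AdI hn S P P' c o g ρ) : AdI hn S' P P' c o g ρ := by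
  obtain ⟨sg, h⟩ := h
  exact ⟨sg, { h with tg := fun w hw h0 h1 => tgP_sub hs (h.tg w hw h0 h1) }⟩

/-- **No boxes in a subclass give no boxes in the class.** -/
theorem noB_subc (H : PkT hn S P rr P' Λ PB) (hne : S'.Ne)
    (hs : ∀ (τ : ℝ) (J : ℕ) (F : Fam n J) (A : F.Ω → Prop), S'.St τ J F A → S.St τ J F A)
    {hTop : TopS n} {hF : FZX (n - 1)} {ρ' : ℝ → ℝ} {hρ : Rle rr ρ'} {h : ℝ}
    {X : Od n → ℝ → Prop} (h0 : NoB (subc H hne hs) hTop hF hρ h X) : NoB H hTop hF hρ h X := by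
  obtain ⟨ι, f, K, h1, h2⟩ := h0
  refine ⟨ι, f, K, ?_, h2⟩
  intro p hp ι' kd x' x c β h' M hc hβ hK _
  exact h1 p (fun c k Q g ρ hh => adI_sub hs (hp c k Q g ρ hh)) kd x' x c β h' M hc hβ
    ⟨hK.A, hK.Φ⟩ trivial

/-- **Exactness in a subclass** at the windows with slopes in `C`, for all packages and rates. -/
def ExS (hn : 2 ≤ n) (hTop : TopS n) (hF : FZX (n - 1)) (C : (Fin (n - 1) → ℝ) → ℝ → Prop) :
    Prop :=
  ∀ (S : PCl n) (P : ℝ → ℝ → ℝ) (r : ℝ → ℝ) (P' : ℕ → List (Fin n) × Fin n → ℝ → ℝ → ℝ)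
    (Λ : Finset (Fin n) → Fin n → ℝ → ℝ → ℝ) (PB : ℕ → List (Fin n) × Fin n → ℝ → ℝ → ℝ)
    (H : PkT hn S P r P' Λ PB) (h : ℝ), 0 < h → h ≤ 1 → ∀ (ρ : ℝ → ℝ) (hρ : Rle r ρ),
    (∀ᵐ Q : ℝ, deriv ρ Q < 1 → h ≤ 1 - deriv r Q) →
    ∃ (S' : PCl n) (hne : S'.Ne)
      (hs : ∀ (τ : ℝ) (J : ℕ) (F : Fam n J) (A : F.Ω → Prop), S'.St τ J F A → S.St τ J F A),
      ExB (subc H hne hs) hTop hF hρ h fun o g =>
        C (slo (subc H hne hs) hTop hF o g) (deriv (fun a => P a a) g)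

theorem ExS.of {hTop : TopS n} {hF : FZX (n - 1)} {C : (Fin (n - 1) → ℝ) → ℝ → Prop}
    (h : ExA hn hTop hF C) : ExS hn hTop hF C := fun S P r P' Λ PB H k h0 h1 ρ hρ hrow =>
  ⟨S, H.ne, fun _ _ _ _ hA => hA, h S P r P' Λ PB _ k h0 h1 ρ hρ hrow⟩

/-- **No boxes without ties** at the windows with one contact coordinate, for all packages. -/
theorem vAll_nS {hTop : TopS n} {hF : FZX (n - 1)} (hV : MicOf CondV)
    (hE : ExS hn hTop hF (OneC n)) : VAll hn hTop hF (NtO n) := by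
  intro S P r P' Λ PB H h h0 h1 ρ hρ hrow hW
  obtain ⟨S', hne, hs, h2⟩ := hE S P r P' Λ PB H h h0 h1 ρ hρ hrow
  obtain ⟨p, hp⟩ := NoB.noBS (h := h) (((noB_D (hρ := hρ) (h := h)).or
    (noB_subc H hne hs (noB_V (P := P) hV h0 h1 h2))).mono fun o => by
      filter_upwards [hW o] with g k1 R _
      obtain ⟨-, h3, h4⟩ := k1 R
      rcases le_or_gt (slN hn P P' o (n - 1) g) 1 with h5 | h5
      · exact Or.inl (Or.inl h5)
      · exact Or.inr ⟨noTie_ntW H h3, by rwa [slN_tar] at h5, h4⟩) hrow h0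
  exact ⟨p, Or.inr hp⟩

/-- **No boxes at the windows with slopes in `C`**, for all packages, from exactness and the ties. -/
theorem vAll_tS {hTop : TopS n} {hF : FZX (n - 1)} (hV : MicOf CondV)
    (hE : ExS hn hTop hF (OneC n)) {C : (Fin (n - 1) → ℝ) → ℝ → Prop}
    (hC : ∀ s σ, C s σ → OneS n s) (hT : NbA hn hTop hF C) : VAll hn hTop hF C := by
  intro S P r P' Λ PB H h h0 h1 ρ hρ hrow hW
  obtain ⟨S', hne, hs, h2⟩ := hE S P r P' Λ PB H h h0 h1 ρ hρ hrow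
  have h3 := hT S P r P' Λ PB H h h0 h1 ρ hρ hrow
  obtain ⟨p, hp⟩ := NoB.noBS (h := h) ((((noB_D (hρ := hρ) (h := h)).or
    (noB_subc H hne hs (noB_V (P := P) hV h0 h1 h2))).or h3).mono fun o => by
      filter_upwards [hW o] with g k1 R _
      obtain ⟨h4, h5⟩ := k1 R
      by_cases ht : ∃ i, slo H hTop hF o g i = deriv (fun a => P a a) g
      · exact Or.inr ⟨h4, h5, ht⟩
      rcases le_or_gt (slN hn P P' o (n - 1) g) 1 with h6 | h6
      · exact Or.inl (Or.inl (Or.inl h6))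
      · refine Or.inl (Or.inr ⟨noTie_ntW H fun i hi => ht ⟨i, hi⟩, ?_, hC _ _ h5⟩)
        rwa [slN_tar] at h6) hrow h0
  exact ⟨p, Or.inr hp⟩

end Pool.TIE62
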